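import Pool.Agent.L0h7.TW.Defs

/-! # Twisted group rings of free groups over regular rings: statements

The twisted versions of the statements of `Pool/Agent/L0h7/RG/Stm.lean`; the proofs are adaptations of
the modules `Pool/Agent/L0h33/RG/{IND,NOE}`, `Pool/Agent/L0h92/RG/TRE`, `Pool/Agent/L0h60/RG/{TRA,RGZ}`.
`Ind F N`, `ten`, `PD`, `Reg` are those of `RG/Defs`, `tsingle_smul_ten` is in `TW/Defs`. -/

set_option autoImplicit false

open CategoryTheory

noncomputable section

namespace Pool.Agent.L0h7.TW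

open Pool.Agent.Y75.NK Pool.Agent.L0h7.KN Pool.Agent.L0h7.RG

/-- TIN (`t_TIN : S_TIN`): induced modules, twisted; as `Pool.Agent.L0h33.RG.t_IND` (1), (3), (4). -/
def S_TIN : Prop :=
  (∀ (A F : Type) [Ring A] [Group F] [MulSemiringAction F A] (n : ℕ) (N : Type) [AddCommGroup N]
    [Module A N], PD A n N → PD (SkewMonoidAlgebra A F) n (Ind F N)) ∧
  (∀ (A F : Type) [Ring A] [Group F] [MulSemiringAction F A] (N : Type) [AddCommGroup N]
    [Module A N], Module.Finite A N → Module.Finite (SkewMonoidAlgebra A F) (Ind F N)) ∧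
  (∀ (A F : Type) [Ring A] [Group F] [MulSemiringAction F A] (N : Type) [AddCommGroup N]
    [Module A N] (X : Type) [AddCommGroup X] [Module (SkewMonoidAlgebra A F) X] (h : N →+ X),
    (∀ (a : A) (x : N), h (a • x) = tio A F a • h x) →
    ∃ g : Ind F N →ₗ[SkewMonoidAlgebra A F] X, ∀ (w : F) (x : N),
      g (ten w x) = (SkewMonoidAlgebra.single w 1 : SkewMonoidAlgebra A F) • h x)

/-- TTR (`t_TTR : S_TRA → S_TIN → S_TTR`): finitely presented modules over the twisted group ring of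
a free group, `A` left Noetherian; as `Pool.Agent.L0h92.RG.t_TRE`, with the following change: for an
`A`-submodule `N` of `M` put `N^s = {y ∈ N | s⁻¹ y ∈ N}` (an `A`-submodule; the set of the `x` with
`s x ∈ N` is not what is needed here), `N₀ = N`, `N₁ = ∀ s, N^s`,
`f (w ⊗ (y_s)) = ∑ s, (w s ⊗ s⁻¹ y_s - w ⊗ y_s)`, `g (w ⊗ x) = w x`. `f` is injective by `S_TRA` for
`z(w, s) = s⁻¹ y(w, s)` and the action of the free group on `M`. -/
def S_TTR : Prop :=
  ∀ (A : Type) [Ring A] (n : ℕ) [MulSemiringAction (FreeGroup (Fin n)) A], IsNoetherianRing A →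
    ∀ (M : Type) [AddCommGroup M] [Module (SkewMonoidAlgebra A (FreeGroup (Fin n))) M],
    Module.FinitePresentation (SkewMonoidAlgebra A (FreeGroup (Fin n))) M →
    ∃ (N₀ N₁ : Type) (_ : AddCommGroup N₀) (_ : AddCommGroup N₁) (_ : Module A N₀)
      (_ : Module A N₁) (_ : Module.Finite A N₀) (_ : Module.Finite A N₁)
      (f : Ind (FreeGroup (Fin n)) N₁ →ₗ[SkewMonoidAlgebra A (FreeGroup (Fin n))]
        Ind (FreeGroup (Fin n)) N₀)
      (g : Ind (FreeGroup (Fin n)) N₀ →ₗ[SkewMonoidAlgebra A (FreeGroup (Fin n))] M),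
      Function.Injective f ∧ Function.Surjective g ∧ LinearMap.range f = LinearMap.ker g

/-- TNO (`t_TNO : S_TNO`): Hilbert's basis theorem, twisted; as `Pool.Agent.L0h33.RG.t_NOE` -/
def S_TNO : Prop :=
  ∀ (A F : Type) [Ring A] [Group F] [MulSemiringAction F A], Nonempty (F ≃* Multiplicative ℤ) →
    IsNoetherianRing A → IsNoetherianRing (SkewMonoidAlgebra A F)

/-- TRZ (`t_TRZ : S_PEX → S_TIN → S_TTR → S_TNO → S_TRZ`): twisted Laurent polynomial rings are
regular; as `Pool.Agent.L0h60.RG.t_RGZ`, without the last change of the ring -/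
def S_TRZ : Prop :=
  ∀ (A : Type) [Ring A] [MulSemiringAction (FreeGroup (Fin 1)) A], Reg A →
    Reg (SkewMonoidAlgebra A (FreeGroup (Fin 1)))

/-- TSD (`t_TSD : S_TSD`): the group ring of a semidirect product. (`F` acts on `N` by `φ`, on
`R[N]` by `mapDomain`; `SkewMonoidAlgebra.liftNCRingHom` with `single x r ↦ single (x, 1) r`,
`w ↦ single (1, w) 1` is bijective: it maps `single w (single x r)` to `single (x, w) r`.) -/
def S_TSD : Prop :=
  ∀ (R N F : Type) [Ring R] [Group N] [Group F] (φ : F →* MulAut N),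
    ∃ (_ : MulSemiringAction F (MonoidAlgebra R N)),
      Nonempty (SkewMonoidAlgebra (MonoidAlgebra R N) F ≃+* MonoidAlgebra R (N ⋊[φ] F))

/-- TKL (`t_TKL : S_TSD → S_TRZ → S_RGZ → S_RIS → S_KNR → S_KTA → S_TKL`): two elements `x`, `y` with
the same square in a torsion-free group. (`a = x y⁻¹` satisfies `x a x⁻¹ = a⁻¹`. If `a = 1` the
subgroup is abelian: `S_KTA`. Otherwise it is isomorphic to `Multiplicative ℤ ⋊ FreeGroup (Fin 1)`
by `(a, x)`: if `a^i x^j = 1` then `a^(2 i) = 1`, so `i = 0` and `j = 0`. So its group ring is regular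
by `S_TSD`, `S_TRZ`, `S_RGZ`, `S_RIS`; apply `S_KNR`.) -/
def S_TKL : Prop :=
  ∀ (R : Type) [Ring R], Reg R → ∀ G : GrpCat.{0}, TFr G → ∀ x y : G, x * x = y * y → ∀ (m : ℕ)
    (z : (Kneg (m + 1)).obj ((gr R).obj (GrpCat.of (Subgroup.closure {x, y})))), z = 0

end Pool.Agent.L0h7.TW
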