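import Pool.Agent.L0h7.RG.Stm
import Mathlib.Algebra.SkewMonoidAlgebra.Basic

/-! # Twisted group rings of free groups over regular rings: definitions

`SkewMonoidAlgebra A F` is the twisted group ring of `F` over `A` for an action of `F` on the ring
`A`. The induced module `A ⋊ F ⊗ N` is again `Ind F N`, the finitely supported functions `F → N`, and
`ten w x` is `w ⊗ x`; the coefficients act by `a (w ⊗ x) = w ⊗ (w⁻¹ • a) x`. -/

set_option autoImplicit false

open CategoryTheory

noncomputable section

namespace Pool.Agent.L0h7.TW

open Pool.Agent.Y75.NK Pool.Agent.L0h7.KN Pool.Agent.L0h7.RG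

/-- the inclusion of the coefficients -/
def tio (A F : Type) [Ring A] [Group F] [MulSemiringAction F A] : A →+* SkewMonoidAlgebra A F :=
  SkewMonoidAlgebra.singleOneRingHom

/-- the action of one coefficient -/
def tact (A F N : Type) [Ring A] [Group F] [MulSemiringAction F A] [AddCommGroup N] [Module A N]
    (a : A) : (F →₀ N) →+ (F →₀ N) :=
  Finsupp.liftAddHom fun w => (Finsupp.singleAddHom w).comp (DistribSMul.toAddMonoidHom N (w⁻¹ • a))

theorem tact_single {A F N : Type} [Ring A] [Group F] [MulSemiringAction F A] [AddCommGroup N]
    [Module A N] (a : A) (w : F) (x : N) :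
    tact A F N a (Finsupp.single w x) = Finsupp.single w ((w⁻¹ • a) • x) := by
  unfold tact
  rw [Finsupp.liftAddHom_apply_single]
  rfl

/-- the action of the coefficients on the induced module -/
def tcoefHom (A F N : Type) [Ring A] [Group F] [MulSemiringAction F A] [AddCommGroup N]
    [Module A N] : A →+* AddMonoid.End (F →₀ N) where
  toFun a := tact A F N a
  map_one' := Finsupp.addHom_ext fun v x => by
    rw [tact_single, smul_one, one_smul]
    rfl
  map_mul' a b := Finsupp.addHom_ext fun v x => by
    change tact A F N (a * b) (Finsupp.single v x) =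
      tact A F N a (tact A F N b (Finsupp.single v x))
    rw [tact_single, tact_single, tact_single, smul_mul', mul_smul]
  map_zero' := Finsupp.addHom_ext fun v x => by
    rw [tact_single, smul_zero, zero_smul, Finsupp.single_zero]
    rfl
  map_add' a b := Finsupp.addHom_ext fun v x => by
    change tact A F N (a + b) (Finsupp.single v x) =
      tact A F N a (Finsupp.single v x) + tact A F N b (Finsupp.single v x)
    rw [tact_single, tact_single, tact_single, smul_add, add_smul, Finsupp.single_add]

/-- the action of the twisted group ring on the induced module as a ring homomorphism -/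
def tindHom (A F N : Type) [Ring A] [Group F] [MulSemiringAction F A] [AddCommGroup N]
    [Module A N] : SkewMonoidAlgebra A F →+* AddMonoid.End (Ind F N) :=
  SkewMonoidAlgebra.liftNCRingHom (tcoefHom A F N) (transHom F N) (by
    intro a w
    refine Finsupp.addHom_ext fun v x => ?_
    change tact A F N (w • a) (Finsupp.mapDomain (fun v => w * v) (Finsupp.single v x)) =
      Finsupp.mapDomain (fun v => w * v) (tact A F N a (Finsupp.single v x))
    rw [Finsupp.mapDomain_single, tact_single, tact_single, Finsupp.mapDomain_single, smul_smul]
    congr 3
    group)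

instance (A F N : Type) [Ring A] [Group F] [MulSemiringAction F A] [AddCommGroup N] [Module A N] :
    Module (SkewMonoidAlgebra A F) (Ind F N) :=
  Module.compHom (Ind F N) (tindHom A F N)

theorem tsingle_smul_ten {A F N : Type} [Ring A] [Group F] [MulSemiringAction F A]
    [AddCommGroup N] [Module A N] (w v : F) (a : A) (x : N) :
    (SkewMonoidAlgebra.single w a : SkewMonoidAlgebra A F) • (ten v x : Ind F N) =
      ten (w * v) (((w * v)⁻¹ • a) • x) := by
  change tindHom A F N (SkewMonoidAlgebra.single w a) (ten v x) = _
  have h : tindHom A F N (SkewMonoidAlgebra.single w a) =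
      tcoefHom A F N a * transHom F N w := by
    change SkewMonoidAlgebra.liftNC _ _ (SkewMonoidAlgebra.single w a) = _
    rw [SkewMonoidAlgebra.liftNC_single]
    rfl
  rw [h]
  change tact A F N a (Finsupp.mapDomain (fun v => w * v) (Finsupp.single v x)) = _
  rw [Finsupp.mapDomain_single, tact_single]
  rfl

end Pool.Agent.L0h7.TW
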